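import Pool.Agent.W14.US.Stm

set_option autoImplicit false
open Complex MeasureTheory Filter Topology
open scoped ContDiff

namespace Pool.Agent.W897.US

open Pool.Agent.W14.US

theorem lim : S_DER → S_CR → S_ITER → S_F := by
  rintro hDER hCR ⟨k, B, hAd, hB, hd, hq, h0, h2⟩
  have hd' : ∀ z n, dist (T (k n) z) (T (k (n + 1)) z) ≤ (1 / 8 : ℝ) * (1 / 2) ^ n := by
    intro z n
    rw [dist_comm, dist_eq_norm]
    exact hd n z
  have hhalf : (1 / 2 : ℝ) < 1 := by norm_num
  have hex : ∀ z, ∃ a, Tendsto (fun n => T (k n) z) atTop (𝓝 a) := fun z =>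
    cauchySeq_tendsto_of_complete (cauchySeq_of_le_geometric (1 / 2) (1 / 8) hhalf (hd' z))
  choose F hF using hex
  have hdist : ∀ z n, dist (T (k n) z) (F z) ≤ (1 / 4 : ℝ) * (1 / 2) ^ n := by
    intro z n
    have := dist_le_of_le_geometric_of_tendsto (1 / 2) (1 / 8) hhalf (hd' z) (hF z) n
    have e : (1 / 8 : ℝ) * (1 / 2) ^ n / (1 - 1 / 2) = (1 / 4 : ℝ) * (1 / 2) ^ n := by ring
    rwa [e] at this
  have hlip : ∀ n z w, ‖T (k n) z - T (k n) w‖ ≤ B * ‖z - w‖ := by
    intro n z w
    obtain ⟨hdiff, hder⟩ := hDER (k n) (hAd n)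
    have hfd : ∀ u ∈ (Set.univ : Set ℂ), ‖fderiv ℝ (T (k n)) u‖ ≤ B := by
      intro u _
      have h1 := (hCR (T (k n)) hdiff).1 u
      rw [(hder u).2.1, (hder u).2.2] at h1
      exact h1.trans (hB n u)
    exact convex_univ.norm_image_sub_le_of_norm_fderiv_le (𝕜 := ℝ)
      (fun u _ => hdiff u) hfd (Set.mem_univ w) (Set.mem_univ z)
  have hunif : TendstoUniformly (fun n => T (k n)) F atTop := by
    rw [Metric.tendstoUniformly_iff]
    intro ε hε
    have ht : Tendsto (fun n : ℕ => (1 / 4 : ℝ) * (1 / 2) ^ n) atTop (𝓝 0) := by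
      have := (tendsto_pow_atTop_nhds_zero_of_lt_one (by norm_num : (0 : ℝ) ≤ 1 / 2) hhalf).const_mul
        (1 / 4 : ℝ)
      simpa using this
    filter_upwards [ht.eventually (gt_mem_nhds hε)] with n hn z
    rw [dist_comm]
    exact (hdist z n).trans_lt hn
  refine ⟨F, max B 1, by positivity, ?_, ?_, ?_, ?_⟩
  · intro z w
    have h1 : Tendsto (fun n => ‖T (k n) z - T (k n) w‖) atTop (𝓝 ‖F z - F w‖) :=
      ((hF z).sub (hF w)).norm
    have h3 : ‖F z - F w‖ ≤ B * ‖z - w‖ := le_of_tendsto h1 (Eventually.of_forall fun n => hlip n z w)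
    exact h3.trans (mul_le_mul_of_nonneg_right (le_max_left _ _) (norm_nonneg _))
  · intro b q
    obtain ⟨s, hs, N, hN⟩ := hq b q
    refine ⟨s, hs, ?_⟩
    have hco : Continuous (co b) := by
      cases b
      · have : co false = fun z => z.re := by funext z; simp [co]
        rw [this]; exact continuous_re
      · have : co true = fun z => z.im := by funext z; simp [co]
        rw [this]; exact continuous_im
    have hU : IsOpen {z : ℂ | |co b z - q| < s} :=
      isOpen_lt (hco.sub continuous_const).abs continuous_const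
    refine TendstoLocallyUniformlyOn.differentiableOn (φ := atTop) (F := fun n => T (k n))
      (hunif.tendstoUniformlyOn.tendstoLocallyUniformlyOn) ?_ hU
    filter_upwards [eventually_ge_atTop N] with n hn
    intro z hz
    obtain ⟨hdiff, hder⟩ := hDER (k n) (hAd n)
    have h1 : db (T (k n)) z = 0 := by
      rw [(hder z).2.1]
      exact hN n hn z hz
    exact ((hCR (T (k n)) hdiff).2 z h1).differentiableWithinAt
  · have h1 := hdist 0 0
    rw [dist_eq_norm, h0] at h1
    have h3 : ‖(1 : ℂ)‖ ≤ ‖(1 : ℂ) - F 0‖ + ‖F 0‖ := by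
      simpa using norm_add_le ((1 : ℂ) - F 0) (F 0)
    rw [norm_one] at h3
    norm_num at h1
    linarith
  · intro z hz
    have h1 := hdist z 0
    rw [dist_eq_norm, h2 z hz, zero_sub, norm_neg] at h1
    simpa using h1

end Pool.Agent.W897.US
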